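import Mathlib

set_option autoImplicit false

namespace Pool.Agent.Results.MP_48292c_co.PaddedClique

open SimpleGraph Finset

/-- The edges of the complete graph `K_N` on `Fin N`. -/
abbrev Edge (N : ℕ) : Type := (⊤ : SimpleGraph (Fin N)).edgeSet

/-- `f` belongs to `F_{N,0}`: it sends every edge of `K_N` to an edge sharing no vertex with it. -/
def IsDisjointMap {N : ℕ} (f : Edge N → Edge N) : Prop :=
  ∀ (e : Edge N) (v : Fin N), v ∈ (e : Sym2 (Fin N)) → v ∉ (f e : Sym2 (Fin N))

/-- `H` is an `f`-free copy of `G` in `K_N`: it is a subgraph of `K_N` isomorphic to `G`, and `f`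
maps no edge of `H` to an edge of `H`. -/
def IsFreeCopy {V : Type} (G : SimpleGraph V) {N : ℕ} (f : Edge N → Edge N)
    (H : (⊤ : SimpleGraph (Fin N)).Subgraph) : Prop :=
  Nonempty (G ≃g H.coe) ∧
    ∀ e : Edge N, (e : Sym2 (Fin N)) ∈ H.edgeSet → (f e : Sym2 (Fin N)) ∉ H.edgeSet

/-- `g_0(G)`: the least `N ≥ 4` such that for every `f` in `F_{N,0}` there is an `f`-free copy of
`G` in `K_N`.  (For `N = 2, 3` the set `F_{N,0}` is empty, so these degenerate values are excluded;
`g0_set_nonempty` below shows that such an `N` exists for every finite graph.) -/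
noncomputable def g0 {V : Type} (G : SimpleGraph V) : ℕ :=
  sInf {N : ℕ | 4 ≤ N ∧ ∀ f : Edge N → Edge N, IsDisjointMap f →
    ∃ H : (⊤ : SimpleGraph (Fin N)).Subgraph, IsFreeCopy G f H}

/-! ### Edges inside a set -/

section

variable {N : ℕ}

open Classical in
/-- The edges with both ends in `S`. -/
noncomputable def inS (S : Finset (Fin N)) : Finset (Edge N) :=
  univ.filter (fun e => ∀ v : Fin N, v ∈ (e : Sym2 (Fin N)) → v ∈ S)

lemma mem_inS {S : Finset (Fin N)} {e : Edge N} :
    e ∈ inS S ↔ ∀ v : Fin N, v ∈ (e : Sym2 (Fin N)) → v ∈ S := by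
  simp [inS]

lemma card_inS (S : Finset (Fin N)) : (inS S).card = S.card.choose 2 := by
  classical
  rw [← Sym2.card_image_offDiag]
  refine Finset.card_bij (fun e _ => (e : Sym2 (Fin N))) ?_ ?_ ?_
  · rintro ⟨e, he⟩ h
    rw [mem_inS] at h
    induction e using Sym2.ind with
    | h x y =>
      simp only [mem_edgeSet, top_adj] at he
      refine Finset.mem_image.mpr ⟨(x, y), ?_, rfl⟩
      rw [Finset.mem_offDiag]
      exact ⟨h x (by simp), h y (by simp), he⟩
  · intro a _ b _ h
    exact Subtype.ext h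
  · intro b hb
    obtain ⟨⟨x, y⟩, hxy, rfl⟩ := Finset.mem_image.mp hb
    rw [Finset.mem_offDiag] at hxy
    refine ⟨⟨s(x, y), by simpa using hxy.2.2⟩, ?_, rfl⟩
    rw [mem_inS]
    intro v hv
    rcases Sym2.mem_iff.mp hv with rfl | rfl
    · exact hxy.1
    · exact hxy.2.1

open Classical in
/-- The vertices of an edge. -/
noncomputable def verts (e : Edge N) : Finset (Fin N) :=
  univ.filter (fun v => v ∈ (e : Sym2 (Fin N)))

lemma mem_verts {e : Edge N} {v : Fin N} : v ∈ verts e ↔ v ∈ (e : Sym2 (Fin N)) := by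
  simp [verts]

lemma card_verts (e : Edge N) : (verts e).card = 2 := by
  classical
  obtain ⟨e, he⟩ := e
  induction e using Sym2.ind with
  | h x y =>
    simp only [mem_edgeSet, top_adj] at he
    have : verts (⟨s(x, y), he⟩ : Edge N) = {x, y} := by
      ext v
      rw [mem_verts]
      simp
    rw [this, Finset.card_pair he]

lemma verts_injective : Function.Injective (verts (N := N)) := by
  intro e f h
  apply Subtype.ext
  apply Sym2.ext
  intro v
  rw [← mem_verts, ← mem_verts, h]

/-- Every four-or-more vertex complete graph has a disjoint edge map. -/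
lemma exists_disjointMap (hN : 4 ≤ N) : ∃ f : Edge N → Edge N, IsDisjointMap f := by
  classical
  have : ∀ e : Edge N, ∃ g : Edge N, g ∈ inS (univ \ verts e) := by
    intro e
    have hc : (inS (univ \ verts e)).card = (N - 2).choose 2 := by
      rw [card_inS, Finset.card_univ_sdiff, card_verts, Fintype.card_fin]
    have hpos : 0 < (inS (univ \ verts e)).card := by
      rw [hc]; exact Nat.choose_pos (by omega)
    exact Finset.card_pos.mp hpos
  choose f hf using this
  refine ⟨f, fun e v hv hv' => ?_⟩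
  have := (mem_inS.mp (hf e)) v hv'
  rw [Finset.mem_sdiff, mem_verts] at this
  exact this.2 hv

/-- First moment: if the stated inequality holds then some disjoint edge map has no free complete
graph on `s` vertices, in the strong sense that every `s`-set contains an edge together with its
image. -/
lemma first_moment {s : ℕ} (hN : 4 ≤ N) (hsN : s ≤ N)
    (h : N.choose s * ((N - 2).choose 2 - (s - 2).choose 2) ^ (s.choose 2) <
      ((N - 2).choose 2) ^ (s.choose 2)) :
    ∃ f : Edge N → Edge N, IsDisjointMap f ∧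
      ∀ S : Finset (Fin N), S.card = s → ∃ e ∈ inS S, f e ∈ inS S := by
  classical
  set d := (N - 2).choose 2 with hd
  set q := (s - 2).choose 2 with hq
  let D : Edge N → Finset (Edge N) := fun e => inS (univ \ verts e)
  have hD : ∀ e, (D e).card = d := by
    intro e
    rw [card_inS, Finset.card_univ_sdiff, card_verts, Fintype.card_fin]
  let all : Finset (Edge N → Edge N) := Fintype.piFinset D
  have hall : all.card = d ^ Fintype.card (Edge N) := by
    rw [Fintype.card_piFinset, Finset.prod_congr rfl (fun e _ => hD e), Finset.prod_const,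
      Finset.card_univ]
  let bad : Finset (Fin N) → Finset (Edge N → Edge N) := fun S =>
    Fintype.piFinset (fun e => if e ∈ inS S then D e \ inS S else D e)
  have hbad : ∀ S : Finset (Fin N), S.card = s →
      (bad S).card = (d - q) ^ (s.choose 2) * d ^ (Fintype.card (Edge N) - s.choose 2) := by
    intro S hS
    rw [Fintype.card_piFinset]
    have h1 : ∀ e : Edge N, (if e ∈ inS S then D e \ inS S else D e).card =
        if e ∈ inS S then d - q else d := by
      intro e
      split_ifs with he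
      · rw [Finset.card_sdiff, hD e]
        congr 1
        have : inS S ∩ D e = inS (S \ verts e) := by
          ext g
          simp only [Finset.mem_inter, mem_inS, D, Finset.mem_sdiff, Finset.mem_univ, true_and]
          constructor
          · rintro ⟨h1, h2⟩ v hv; exact ⟨h1 v hv, h2 v hv⟩
          · intro h; exact ⟨fun v hv => (h v hv).1, fun v hv => (h v hv).2⟩
        rw [this, card_inS, Finset.card_sdiff_of_subset, card_verts, hS]
        intro v hv
        exact (mem_inS.mp he) v (mem_verts.mp hv)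
      · exact hD e
    rw [Finset.prod_congr rfl (fun e _ => h1 e), Finset.prod_ite, Finset.prod_const,
      Finset.prod_const]
    have h2 : (univ.filter (fun e : Edge N => e ∈ inS S)).card = s.choose 2 := by
      rw [Finset.filter_mem_eq_inter, Finset.univ_inter, card_inS, hS]
    have h3 : (univ.filter (fun e : Edge N => e ∉ inS S)).card =
        Fintype.card (Edge N) - s.choose 2 := by
      have := Finset.card_filter_add_card_filter_not (s := (univ : Finset (Edge N)))
        (fun e : Edge N => e ∈ inS S)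
      rw [h2, Finset.card_univ] at this
      omega
    rw [h2, h3]
  have hE : s.choose 2 ≤ Fintype.card (Edge N) := by
    have h0 : Fintype.card (Edge N) = N.choose 2 := by
      have h1 : (inS (univ : Finset (Fin N))) = univ := by
        ext e; simp [mem_inS]
      rw [← Finset.card_univ, ← h1, card_inS, Finset.card_univ, Fintype.card_fin]
    rw [h0]
    exact Nat.choose_le_choose 2 hsN
  have hd0 : 0 < d := Nat.choose_pos (by omega)
  have hunion : ((powersetCard s (univ : Finset (Fin N))).biUnion bad).card < all.card := by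
    calc ((powersetCard s (univ : Finset (Fin N))).biUnion bad).card
        ≤ ∑ S ∈ powersetCard s (univ : Finset (Fin N)), (bad S).card := Finset.card_biUnion_le
      _ = ∑ S ∈ powersetCard s (univ : Finset (Fin N)),
            (d - q) ^ (s.choose 2) * d ^ (Fintype.card (Edge N) - s.choose 2) :=
          Finset.sum_congr rfl (fun S hS => hbad S (Finset.mem_powersetCard.mp hS).2)
      _ = (N.choose s * (d - q) ^ (s.choose 2)) * d ^ (Fintype.card (Edge N) - s.choose 2) := by
          rw [Finset.sum_const, Finset.card_powersetCard, Finset.card_univ, Fintype.card_fin,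
            smul_eq_mul, mul_assoc]
      _ < d ^ (s.choose 2) * d ^ (Fintype.card (Edge N) - s.choose 2) :=
          Nat.mul_lt_mul_of_pos_right h (pow_pos hd0 _)
      _ = all.card := by rw [hall, ← pow_add, Nat.add_sub_cancel' hE]
  obtain ⟨f, hf, hfb⟩ := Finset.exists_mem_notMem_of_card_lt_card hunion
  have hfD : ∀ e, f e ∈ D e := Fintype.mem_piFinset.mp hf
  refine ⟨f, fun e v hv hv' => ?_, fun S hS => ?_⟩
  · have := (mem_inS.mp (hfD e)) v hv'
    rw [Finset.mem_sdiff, mem_verts] at this
    exact this.2 hv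
  · by_contra hno
    push Not at hno
    apply hfb
    rw [Finset.mem_biUnion]
    refine ⟨S, Finset.mem_powersetCard.mpr ⟨Finset.subset_univ _, hS⟩, ?_⟩
    rw [Fintype.mem_piFinset]
    intro e
    split_ifs with he
    · exact Finset.mem_sdiff.mpr ⟨hfD e, hno e he⟩
    · exact hfD e

/-- For large `N` every disjoint edge map has a free complete graph on `n` vertices. -/
lemma exists_free_clique {n : ℕ} (hn : n ≤ N)
    (h : n.choose 4 * N.choose 2 < N.choose 4) (f : Edge N → Edge N) (hf : IsDisjointMap f) :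
    ∃ S : Finset (Fin N), S.card = n ∧ ∀ e ∈ inS S, f e ∉ inS S := by
  classical
  by_contra hno
  push Not at hno
  -- every `n`-set contains some `e ∪ f e`
  have hcover : powersetCard n (univ : Finset (Fin N)) ⊆
      (univ : Finset (Edge N)).biUnion
        (fun e => (powersetCard n (univ : Finset (Fin N))).filter
          (fun S => verts e ∪ verts (f e) ⊆ S)) := by
    intro S hS
    obtain ⟨e, he, hfe⟩ := hno S (Finset.mem_powersetCard.mp hS).2
    rw [Finset.mem_biUnion]
    refine ⟨e, Finset.mem_univ _, Finset.mem_filter.mpr ⟨hS, ?_⟩⟩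
    apply Finset.union_subset
    · intro v hv; exact (mem_inS.mp he) v (mem_verts.mp hv)
    · intro v hv; exact (mem_inS.mp hfe) v (mem_verts.mp hv)
  have hcount : ∀ e : Edge N, ((powersetCard n (univ : Finset (Fin N))).filter
          (fun S => verts e ∪ verts (f e) ⊆ S)).card ≤ (N - 4).choose (n - 4) := by
    intro e
    set T := verts e ∪ verts (f e) with hT
    have hTc : T.card = 4 := by
      rw [hT, Finset.card_union_of_disjoint, card_verts, card_verts]
      rw [Finset.disjoint_left]
      intro v hv hv'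
      exact hf e v (mem_verts.mp hv) (mem_verts.mp hv')
    have : ((powersetCard n (univ : Finset (Fin N))).filter (fun S => T ⊆ S)).card ≤
        (powersetCard (n - 4) ((univ : Finset (Fin N)) \ T)).card := by
      refine Finset.card_le_card_of_injOn (fun S => S \ T) ?_ ?_
      · intro S hS
        rw [Finset.mem_coe, Finset.mem_filter, Finset.mem_powersetCard] at hS
        rw [Finset.mem_coe, Finset.mem_powersetCard]
        refine ⟨Finset.sdiff_subset_sdiff (Finset.subset_univ _) (subset_refl _), ?_⟩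
        rw [Finset.card_sdiff_of_subset hS.2, hTc, hS.1.2]
      · intro S hS S' hS' hSS'
        rw [Finset.mem_coe, Finset.mem_filter] at hS hS'
        have h1 := Finset.sdiff_union_of_subset hS.2
        have h2 := Finset.sdiff_union_of_subset hS'.2
        simp only at hSS'
        rw [← h1, ← h2, hSS']
    refine this.trans_eq ?_
    rw [Finset.card_powersetCard, Finset.card_univ_sdiff, hTc, Fintype.card_fin]
  have hE : Fintype.card (Edge N) = N.choose 2 := by
    have h1 : (inS (univ : Finset (Fin N))) = univ := by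
      ext e; simp [mem_inS]
    rw [← Finset.card_univ, ← h1, card_inS, Finset.card_univ, Fintype.card_fin]
  have h1 : N.choose n ≤ N.choose 2 * (N - 4).choose (n - 4) := by
    calc N.choose n = (powersetCard n (univ : Finset (Fin N))).card := by
          rw [Finset.card_powersetCard, Finset.card_univ, Fintype.card_fin]
      _ ≤ _ := Finset.card_le_card hcover
      _ ≤ ∑ e : Edge N, ((powersetCard n (univ : Finset (Fin N))).filter
          (fun S => verts e ∪ verts (f e) ⊆ S)).card := Finset.card_biUnion_le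
      _ ≤ ∑ _e : Edge N, (N - 4).choose (n - 4) := Finset.sum_le_sum (fun e _ => hcount e)
      _ = N.choose 2 * (N - 4).choose (n - 4) := by
          rw [Finset.sum_const, Finset.card_univ, hE, smul_eq_mul]
  rcases Nat.lt_or_ge n 4 with hn4 | hn4
  · -- then an `n`-set contains no four vertices
    obtain ⟨S, hS⟩ : ∃ S : Finset (Fin N), S.card = n := by
      obtain ⟨S, -, hS⟩ := Finset.exists_subset_card_eq
        (s := (univ : Finset (Fin N))) (n := n) (by rw [Finset.card_univ, Fintype.card_fin]; exact hn)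
      exact ⟨S, hS⟩
    obtain ⟨e, he, hfe⟩ := hno S hS
    have hsub : verts e ∪ verts (f e) ⊆ S := by
      apply Finset.union_subset
      · intro v hv; exact (mem_inS.mp he) v (mem_verts.mp hv)
      · intro v hv; exact (mem_inS.mp hfe) v (mem_verts.mp hv)
    have hc := Finset.card_le_card hsub
    rw [Finset.card_union_of_disjoint, card_verts, card_verts] at hc
    · omega
    · rw [Finset.disjoint_left]
      intro v hv hv'
      exact hf e v (mem_verts.mp hv) (mem_verts.mp hv')
  · have hmul := Nat.choose_mul (n := N) (k := n) (s := 4) hn4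
    have hpos : 0 < (N - 4).choose (n - 4) := Nat.choose_pos (by omega)
    have h2 : N.choose 4 * (N - 4).choose (n - 4) ≤
        (n.choose 4 * N.choose 2) * (N - 4).choose (n - 4) := by
      calc N.choose 4 * (N - 4).choose (n - 4) = N.choose n * n.choose 4 := hmul.symm
        _ ≤ (N.choose 2 * (N - 4).choose (n - 4)) * n.choose 4 := Nat.mul_le_mul_right _ h1
        _ = (n.choose 4 * N.choose 2) * (N - 4).choose (n - 4) := by ring
    exact absurd (Nat.le_of_mul_le_mul_right h2 hpos) (not_le.mpr h)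

end

/-! ### The graph -/

/-- The complete graph on the first `s` of `n` vertices, with all the other vertices joined to the
vertex `0` only. -/
def cliqueStar (s n : ℕ) : SimpleGraph (Fin n) where
  Adj u v := u ≠ v ∧ ((u.val < s ∧ v.val < s) ∨ u.val = 0 ∨ v.val = 0)
  symm := ⟨fun u v h => ⟨h.1.symm, by tauto⟩⟩
  loopless := ⟨fun u h => h.1 rfl⟩

lemma cliqueStar_edges (s n : ℕ) : (cliqueStar s n).edgeSet.ncard ≤ s ^ 2 + n := by
  classical
  let A : Finset (Sym2 (Fin n)) :=
    ((univ.filter (fun v : Fin n => v.val < s)) ×ˢ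
      (univ.filter (fun v : Fin n => v.val < s))).image (fun p => s(p.1, p.2))
  let B : Finset (Sym2 (Fin n)) :=
    ((univ.filter (fun v : Fin n => v.val = 0)) ×ˢ (univ : Finset (Fin n))).image
      (fun p => s(p.1, p.2))
  have hsub : (cliqueStar s n).edgeSet ⊆ ((A ∪ B : Finset (Sym2 (Fin n))) : Set (Sym2 (Fin n))) := by
    intro e he
    induction e using Sym2.ind with
    | h x y =>
      rw [mem_edgeSet] at he
      obtain ⟨-, h | h | h⟩ := he
      · rw [Finset.coe_union]; left
        exact Finset.mem_coe.mpr (Finset.mem_image.mpr ⟨(x, y), by simp [h.1, h.2], rfl⟩)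
      · rw [Finset.coe_union]; right
        exact Finset.mem_coe.mpr (Finset.mem_image.mpr ⟨(x, y), by simp [h], rfl⟩)
      · rw [Finset.coe_union]; right
        exact Finset.mem_coe.mpr (Finset.mem_image.mpr ⟨(y, x), by simp [h], Sym2.eq_swap⟩)
  have h1 : (univ.filter (fun v : Fin n => v.val < s)).card ≤ s := by
    calc (univ.filter (fun v : Fin n => v.val < s)).card ≤ (Finset.range s).card := by
          refine Finset.card_le_card_of_injOn (fun v => v.val) ?_ ?_
          · intro v hv
            simp only [Finset.coe_filter, Finset.mem_univ, true_and, Set.mem_ofPred_eq] at hv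
            simpa using hv
          · intro a _ b _ h; exact Fin.ext h
      _ = s := Finset.card_range s
  have h2 : (univ.filter (fun v : Fin n => v.val = 0)).card ≤ 1 := by
    rw [Finset.card_le_one]
    intro a ha b hb
    simp only [Finset.mem_filter, Finset.mem_univ, true_and] at ha hb
    exact Fin.ext (ha.trans hb.symm)
  calc (cliqueStar s n).edgeSet.ncard
      ≤ ((A ∪ B : Finset (Sym2 (Fin n))) : Set (Sym2 (Fin n))).ncard :=
        Set.ncard_le_ncard hsub (Finset.finite_toSet _)
    _ = (A ∪ B).card := Set.ncard_coe_finset _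
    _ ≤ A.card + B.card := Finset.card_union_le _ _
    _ ≤ s ^ 2 + n := by
        refine Nat.add_le_add ?_ ?_
        · refine Finset.card_image_le.trans ?_
          rw [Finset.card_product, pow_two]
          exact Nat.mul_le_mul h1 h1
        · refine Finset.card_image_le.trans ?_
          rw [Finset.card_product, Finset.card_univ, Fintype.card_fin]
          calc _ ≤ 1 * n := Nat.mul_le_mul_right _ h2
            _ = n := one_mul n

lemma cliqueStar_connected {s n : ℕ} (hn : 0 < n) : (cliqueStar s n).Connected := by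
  have h0 : ∀ v : Fin n, (cliqueStar s n).Reachable ⟨0, hn⟩ v := by
    intro v
    by_cases h : (⟨0, hn⟩ : Fin n) = v
    · rw [h]
    · exact SimpleGraph.Adj.reachable ⟨h, Or.inr (Or.inl rfl)⟩
  have : Nonempty (Fin n) := ⟨⟨0, hn⟩⟩
  exact ⟨fun u v => (h0 u).symm.trans (h0 v)⟩

lemma cliqueStar_noIsolated {s n : ℕ} (hn : 2 ≤ n) (v : Fin n) :
    ∃ w, (cliqueStar s n).Adj v w := by
  by_cases h : v.val = 0
  · refine ⟨⟨1, by omega⟩, ?_, Or.inr (Or.inl h)⟩
    intro h'
    rw [h'] at h
    simp at h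
  · refine ⟨⟨0, by omega⟩, ?_, Or.inr (Or.inr rfl)⟩
    intro h'
    rw [h'] at h
    simp at h

/-- A free copy of `cliqueStar s n` contains a free complete graph on `s` vertices. -/
lemma free_clique_of_free_copy {N s n : ℕ} (hsn : s ≤ n) (f : Edge N → Edge N)
    (H : (⊤ : SimpleGraph (Fin N)).Subgraph) (hH : IsFreeCopy (cliqueStar s n) f H) :
    ∃ S : Finset (Fin N), S.card = s ∧ ∀ e ∈ inS S, f e ∉ inS S := by
  classical
  obtain ⟨⟨φ⟩, hfree⟩ := hH
  let ψ : Fin n → Fin N := fun v => (φ v : Fin N)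
  have hψ : Function.Injective ψ := fun a b h => φ.injective (Subtype.ext h)
  let S0 : Finset (Fin n) := univ.filter (fun v : Fin n => v.val < s)
  have hS0 : S0.card = s := by
    have h := Fin.card_filter_val_lt (n := n) (m := s)
    simp only [S0]
    rw [h]; omega
  refine ⟨S0.image ψ, by rw [Finset.card_image_of_injective _ hψ, hS0], ?_⟩
  have hedge : ∀ e : Edge N, e ∈ inS (S0.image ψ) → (e : Sym2 (Fin N)) ∈ H.edgeSet := by
    rintro ⟨e, he⟩ h
    rw [mem_inS] at h
    induction e using Sym2.ind with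
    | h x y =>
      simp only [mem_edgeSet, top_adj] at he
      obtain ⟨a, ha, rfl⟩ := Finset.mem_image.mp (h x (by simp))
      obtain ⟨b, hb, rfl⟩ := Finset.mem_image.mp (h y (by simp))
      have hab : a ≠ b := fun h' => he (by rw [h'])
      have hadj : (cliqueStar s n).Adj a b := by
        refine ⟨hab, Or.inl ⟨?_, ?_⟩⟩
        · simpa [S0] using ha
        · simpa [S0] using hb
      have := φ.map_rel_iff.mpr hadj
      rw [Subgraph.coe_adj] at this
      exact this
  intro e he hfe
  exact hfree e (hedge e he) (hedge (f e) hfe)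

/-- From a free complete graph on `n` vertices we get a free copy of any graph on `n` vertices. -/
lemma free_copy_of_free_clique {N n : ℕ} (G : SimpleGraph (Fin n)) (f : Edge N → Edge N)
    (S : Finset (Fin N)) (hS : S.card = n) (hfree : ∀ e ∈ inS S, f e ∉ inS S) :
    ∃ H : (⊤ : SimpleGraph (Fin N)).Subgraph, IsFreeCopy G f H := by
  classical
  let φ : Fin n ↪ Fin N := (S.orderEmbOfFin hS).toEmbedding
  have hφ : ∀ v, φ v ∈ S := fun v => Finset.orderEmbOfFin_mem S hS v
  let c : Copy G (⊤ : SimpleGraph (Fin N)) :=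
    ⟨⟨φ, fun {a b} h => by
      simp only [top_adj]
      exact fun h' => h.ne (φ.injective h')⟩, φ.injective⟩
  refine ⟨c.toSubgraph, ⟨c.isoToSubgraph⟩, ?_⟩
  have hedge : ∀ e : Edge N, (e : Sym2 (Fin N)) ∈ c.toSubgraph.edgeSet → e ∈ inS S := by
    rintro ⟨e, he⟩ h
    rw [mem_inS]
    induction e using Sym2.ind with
    | h x y =>
      simp only [Subgraph.mem_edgeSet, Subgraph.map_adj, Relation.map_apply] at h
      obtain ⟨a, b, -, rfl, rfl⟩ := h
      intro v hv
      rcases Sym2.mem_iff.mp hv with rfl | rfl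
      · exact hφ a
      · exact hφ b
  intro e he hfe
  exact hfree e (hedge e he) (hedge (f e) hfe)

/-- The set defining `g0` is nonempty, so that `g0` is really a minimum. -/
lemma g0_set_nonempty {n : ℕ} (G : SimpleGraph (Fin n)) :
    {N : ℕ | 4 ≤ N ∧ ∀ f : Edge N → Edge N, IsDisjointMap f →
      ∃ H : (⊤ : SimpleGraph (Fin N)).Subgraph, IsFreeCopy G f H}.Nonempty := by
  set N := 12 * n.choose 4 + n + 4 with hN
  refine ⟨N, by omega, fun f hf => ?_⟩
  have hchoose : n.choose 4 * N.choose 2 < N.choose 4 := by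
    have h1 : N.choose 4 * Nat.choose 4 2 = N.choose 2 * (N - 2).choose (4 - 2) :=
      Nat.choose_mul (n := N) (k := 4) (s := 2) (by norm_num)
    have h2 : Nat.choose 4 2 = 6 := by decide
    rw [h2] at h1
    have h3 : 6 * n.choose 4 < (N - 2).choose 2 := by
      rw [Nat.choose_two_right]
      have h4 : N - 2 = 12 * n.choose 4 + n + 2 := by omega
      have h5 : N - 2 - 1 = 12 * n.choose 4 + n + 1 := by omega
      rw [h5, h4]
      rw [Nat.lt_div_iff_mul_lt (by norm_num)]
      have h8 : 2 * (12 * n.choose 4 + n + 1) ≤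
          (12 * n.choose 4 + n + 2) * (12 * n.choose 4 + n + 1) :=
        Nat.mul_le_mul_right _ (by omega)
      omega
    have h6 : 0 < N.choose 2 := Nat.choose_pos (by omega)
    have h7 : (n.choose 4 * N.choose 2) * 6 < N.choose 4 * 6 := by
      rw [h1]
      calc (n.choose 4 * N.choose 2) * 6 = N.choose 2 * (6 * n.choose 4) := by ring
        _ < N.choose 2 * (N - 2).choose 2 := Nat.mul_lt_mul_of_pos_left h3 h6
    exact Nat.lt_of_mul_lt_mul_right h7
  obtain ⟨S, hS, hfree⟩ := exists_free_clique (n := n) (by omega) hchoose f hf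
  exact free_copy_of_free_clique G f S hS hfree

/-! ### The numerical estimate -/

lemma exists_t (K : ℝ) (hK : 1 ≤ K) :
    ∃ t : ℕ, 2 ≤ t ∧ 64 * K ^ 2 * (Real.log K + 4 * Real.log t) < t := by
  have hc : (0 : ℝ) < 1 / (1024 * K ^ 2) := by positivity
  have h1 : ∀ᶠ x : ℝ in Filter.atTop, ‖Real.log x‖ ≤ 1 / (1024 * K ^ 2) * ‖id x‖ :=
    Real.isLittleO_log_id_atTop.bound hc
  have h2 : ∀ᶠ t : ℕ in Filter.atTop, ‖Real.log (t : ℝ)‖ ≤ 1 / (1024 * K ^ 2) * ‖id (t : ℝ)‖ :=
    tendsto_natCast_atTop_atTop.eventually h1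
  have h3 : ∀ᶠ t : ℕ in Filter.atTop, 256 * K ^ 2 * Real.log K < (t : ℝ) :=
    tendsto_natCast_atTop_atTop.eventually (Filter.eventually_gt_atTop _)
  obtain ⟨t, ht1, ht2, ht3⟩ := (h2.and (h3.and (Filter.eventually_ge_atTop 2))).exists
  refine ⟨t, ht3, ?_⟩
  have htpos : (0 : ℝ) < t := by
    have : (2 : ℝ) ≤ t := by exact_mod_cast ht3
    linarith
  rw [id, Real.norm_of_nonneg htpos.le] at ht1
  have ht4 : Real.log t ≤ 1 / (1024 * K ^ 2) * t := (le_abs_self _).trans ht1
  have hK2 : (0 : ℝ) < K ^ 2 := by positivity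
  have h5 : 256 * K ^ 2 * Real.log t ≤ t / 4 := by
    calc 256 * K ^ 2 * Real.log t ≤ 256 * K ^ 2 * (1 / (1024 * K ^ 2) * t) :=
          mul_le_mul_of_nonneg_left ht4 (by positivity)
      _ = t / 4 := by field_simp; norm_num
  nlinarith

lemma numeric {K : ℝ} (hK : 1 ≤ K) {t N : ℕ} (ht : 2 ≤ t)
    (hlog : 64 * K ^ 2 * (Real.log K + 4 * Real.log t) < t)
    (hsN : t ^ 3 ≤ N) (hN : (N : ℝ) ≤ K * (t : ℝ) ^ 4) :
    N.choose (t ^ 3) * ((N - 2).choose 2 - (t ^ 3 - 2).choose 2) ^ ((t ^ 3).choose 2) <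
      ((N - 2).choose 2) ^ ((t ^ 3).choose 2) := by
  set s := t ^ 3 with hs
  have hs8 : 8 ≤ s := by
    calc 8 = 2 ^ 3 := by norm_num
      _ ≤ t ^ 3 := Nat.pow_le_pow_left ht 3
  set a := s.choose 2 with ha
  set d := (N - 2).choose 2 with hd
  set q := (s - 2).choose 2 with hq
  have hqd : q ≤ d := Nat.choose_le_choose 2 (by omega)
  have hdpos : 0 < d := Nat.choose_pos (by omega)
  have hsR : (8 : ℝ) ≤ s := by exact_mod_cast hs8
  have hsNR : (s : ℝ) ≤ N := by exact_mod_cast hsN
  have haR : (a : ℝ) = s * (s - 1) / 2 := by rw [ha, Nat.cast_choose_two]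
  have hqR : (q : ℝ) = (s - 2) * (s - 3) / 2 := by
    rw [hq, Nat.cast_choose_two, Nat.cast_sub (by omega)]
    push_cast; ring
  have hdR : (d : ℝ) = (N - 2) * (N - 3) / 2 := by
    rw [hd, Nat.cast_choose_two, Nat.cast_sub (by omega)]
    push_cast; ring
  have hdR0 : (0 : ℝ) < d := by exact_mod_cast hdpos
  have hNpos : (0 : ℝ) < N := by linarith
  -- lower bound for the exponent
  have hexp : (s : ℝ) ^ 4 / (64 * N ^ 2) ≤ (q : ℝ) / d * a := by
    have h1 : (s : ℝ) ^ 2 / 32 ≤ q := by rw [hqR]; nlinarith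
    have h2 : (d : ℝ) ≤ (N : ℝ) ^ 2 / 2 := by rw [hdR]; nlinarith
    have h3 : (s : ℝ) ^ 2 / 4 ≤ a := by rw [haR]; nlinarith
    have h4 : (s : ℝ) ^ 2 / (16 * N ^ 2) ≤ (q : ℝ) / d := by
      rw [div_le_div_iff₀ (by positivity) hdR0]
      calc (s : ℝ) ^ 2 * d ≤ (s : ℝ) ^ 2 * ((N : ℝ) ^ 2 / 2) :=
            mul_le_mul_of_nonneg_left h2 (by positivity)
        _ = ((s : ℝ) ^ 2 / 32) * (16 * N ^ 2) := by ring
        _ ≤ q * (16 * N ^ 2) := mul_le_mul_of_nonneg_right h1 (by positivity)
    calc (s : ℝ) ^ 4 / (64 * N ^ 2) = (s : ℝ) ^ 2 / (16 * N ^ 2) * ((s : ℝ) ^ 2 / 4) := by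
          field_simp; norm_num
      _ ≤ (q : ℝ) / d * a := mul_le_mul h4 h3 (by positivity) (by positivity)
  -- comparison of the logarithms
  have hmain : (s : ℝ) * Real.log N < (s : ℝ) ^ 4 / (64 * N ^ 2) := by
    have htR : (2 : ℝ) ≤ t := by exact_mod_cast ht
    have ht0 : (0 : ℝ) < t := by linarith
    have hlogN : Real.log N ≤ Real.log K + 4 * Real.log t := by
      calc Real.log N ≤ Real.log (K * (t : ℝ) ^ 4) := Real.log_le_log hNpos hN
        _ = Real.log K + 4 * Real.log t := by
            rw [Real.log_mul (by positivity) (by positivity), Real.log_pow]; norm_num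
    have hlogN0 : 0 ≤ Real.log N := Real.log_nonneg (by linarith)
    have hN2 : (N : ℝ) ^ 2 ≤ (K * (t : ℝ) ^ 4) ^ 2 := by
      apply pow_le_pow_left₀ hNpos.le hN
    have h1 : 64 * (N : ℝ) ^ 2 * Real.log N < (s : ℝ) ^ 3 := by
      calc 64 * (N : ℝ) ^ 2 * Real.log N
          ≤ 64 * (K * (t : ℝ) ^ 4) ^ 2 * (Real.log K + 4 * Real.log t) := by
            apply mul_le_mul _ hlogN hlogN0 (by positivity)
            linarith
        _ = (64 * K ^ 2 * (Real.log K + 4 * Real.log t)) * (t : ℝ) ^ 8 := by ring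
        _ < t * (t : ℝ) ^ 8 := mul_lt_mul_of_pos_right hlog (by positivity)
        _ = (s : ℝ) ^ 3 := by rw [hs]; push_cast; ring
    rw [lt_div_iff₀ (by positivity)]
    have hs0 : (0 : ℝ) < s := by linarith
    calc (s : ℝ) * Real.log N * (64 * N ^ 2) = s * (64 * (N : ℝ) ^ 2 * Real.log N) := by ring
      _ < s * (s : ℝ) ^ 3 := mul_lt_mul_of_pos_left h1 hs0
      _ = (s : ℝ) ^ 4 := by ring
  -- conclusion over the reals
  have hfinal : (N.choose s : ℝ) * ((d : ℝ) - q) ^ a < (d : ℝ) ^ a := by
    have h1 : ((d : ℝ) - q) ^ a ≤ (d : ℝ) ^ a * Real.exp (-((q : ℝ) / d * a)) := by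
      have h2 : (d : ℝ) - q = d * (1 - q / d) := by field_simp
      have h3 : 0 ≤ 1 - (q : ℝ) / d := by
        have : (q : ℝ) / d ≤ 1 := by
          rw [div_le_one hdR0]; exact_mod_cast hqd
        linarith
      have h4 : 1 - (q : ℝ) / d ≤ Real.exp (-((q : ℝ) / d)) := Real.one_sub_le_exp_neg _
      rw [h2, mul_pow]
      refine mul_le_mul_of_nonneg_left ?_ (by positivity)
      calc (1 - (q : ℝ) / d) ^ a ≤ (Real.exp (-((q : ℝ) / d))) ^ a := pow_le_pow_left₀ h3 h4 a
        _ = Real.exp (-((q : ℝ) / d * a)) := by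
            rw [← Real.exp_nat_mul]; congr 1; ring
    have h5 : (N.choose s : ℝ) ≤ Real.exp (s * Real.log N) := by
      calc (N.choose s : ℝ) ≤ ((N ^ s : ℕ) : ℝ) := by exact_mod_cast Nat.choose_le_pow N s
        _ = (N : ℝ) ^ s := by push_cast; ring
        _ = Real.exp (s * Real.log N) := by
            rw [mul_comm, Real.exp_mul, Real.exp_log hNpos, Real.rpow_natCast]
    have h6 : Real.exp (s * Real.log N) * Real.exp (-((q : ℝ) / d * a)) < 1 := by
      rw [← Real.exp_add, Real.exp_lt_one_iff]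
      linarith
    calc (N.choose s : ℝ) * ((d : ℝ) - q) ^ a
        ≤ Real.exp (s * Real.log N) * ((d : ℝ) ^ a * Real.exp (-((q : ℝ) / d * a))) := by
          apply mul_le_mul h5 h1
          · apply pow_nonneg
            have : (q : ℝ) ≤ d := by exact_mod_cast hqd
            linarith
          · positivity
      _ = (d : ℝ) ^ a * (Real.exp (s * Real.log N) * Real.exp (-((q : ℝ) / d * a))) := by ring
      _ < (d : ℝ) ^ a * 1 := mul_lt_mul_of_pos_left h6 (by positivity)
      _ = (d : ℝ) ^ a := mul_one _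
  have hcast : ((N.choose s * (d - q) ^ a : ℕ) : ℝ) < ((d ^ a : ℕ) : ℝ) := by
    push_cast [Nat.cast_sub hqd]
    exact hfinal
  exact_mod_cast hcast

/-- **The conjectured bound fails.**  For every `C` there is a connected graph `G` on `n ≥ 2`
vertices (in particular without isolated vertices) with `g_0(G) > C (m / √n + n)`. -/
theorem result : ∀ C : ℝ, ∃ (n : ℕ) (G : SimpleGraph (Fin n)),
    G.Connected ∧ (∀ v, ∃ w, G.Adj v w) ∧
      C * ((G.edgeSet.ncard : ℝ) / Real.sqrt n + n) < g0 G := by
  intro C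
  set K : ℝ := 3 * max C 1 with hK
  have hC1 : (1 : ℝ) ≤ max C 1 := le_max_right _ _
  have hK1 : 1 ≤ K := by rw [hK]; linarith
  obtain ⟨t, ht, hlog⟩ := exists_t K hK1
  have htR : (2 : ℝ) ≤ t := by exact_mod_cast ht
  have hst : t ^ 3 ≤ t ^ 4 := Nat.pow_le_pow_right (by omega) (by norm_num)
  have ht16 : 16 ≤ t ^ 4 := by
    calc 16 = 2 ^ 4 := by norm_num
      _ ≤ t ^ 4 := Nat.pow_le_pow_left ht 4
  refine ⟨t ^ 4, cliqueStar (t ^ 3) (t ^ 4), cliqueStar_connected (by omega),
    fun v => cliqueStar_noIsolated (by omega) v, ?_⟩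
  -- the conjectured bound is at most `K t ^ 4`
  have hbound : C * (((cliqueStar (t ^ 3) (t ^ 4)).edgeSet.ncard : ℝ) /
      Real.sqrt ((t ^ 4 : ℕ) : ℝ) + ((t ^ 4 : ℕ) : ℝ)) ≤ K * (t : ℝ) ^ 4 := by
    have hm : ((cliqueStar (t ^ 3) (t ^ 4)).edgeSet.ncard : ℝ) ≤ (t : ℝ) ^ 6 + (t : ℝ) ^ 4 := by
      have h := cliqueStar_edges (t ^ 3) (t ^ 4)
      calc ((cliqueStar (t ^ 3) (t ^ 4)).edgeSet.ncard : ℝ)
          ≤ (((t ^ 3) ^ 2 + t ^ 4 : ℕ) : ℝ) := by exact_mod_cast h
        _ = (t : ℝ) ^ 6 + (t : ℝ) ^ 4 := by push_cast; ring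
    have hsqrt : Real.sqrt ((t ^ 4 : ℕ) : ℝ) = (t : ℝ) ^ 2 := by
      rw [show ((t ^ 4 : ℕ) : ℝ) = ((t : ℝ) ^ 2) ^ 2 by push_cast; ring]
      exact Real.sqrt_sq (by positivity)
    have hX : ((cliqueStar (t ^ 3) (t ^ 4)).edgeSet.ncard : ℝ) /
        Real.sqrt ((t ^ 4 : ℕ) : ℝ) + ((t ^ 4 : ℕ) : ℝ) ≤ 3 * (t : ℝ) ^ 4 := by
      rw [hsqrt]
      have h1 : ((cliqueStar (t ^ 3) (t ^ 4)).edgeSet.ncard : ℝ) / (t : ℝ) ^ 2 ≤
          (t : ℝ) ^ 4 + (t : ℝ) ^ 2 := by
        rw [div_le_iff₀ (by positivity)]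
        calc _ ≤ (t : ℝ) ^ 6 + (t : ℝ) ^ 4 := hm
          _ = ((t : ℝ) ^ 4 + (t : ℝ) ^ 2) * (t : ℝ) ^ 2 := by ring
      have h2 : (t : ℝ) ^ 2 ≤ (t : ℝ) ^ 4 := by
        apply pow_le_pow_right₀ (by linarith) (by norm_num)
      push_cast
      linarith
    have hX0 : 0 ≤ ((cliqueStar (t ^ 3) (t ^ 4)).edgeSet.ncard : ℝ) /
        Real.sqrt ((t ^ 4 : ℕ) : ℝ) + ((t ^ 4 : ℕ) : ℝ) := by positivity
    calc _ ≤ (max C 1) * (((cliqueStar (t ^ 3) (t ^ 4)).edgeSet.ncard : ℝ) /
        Real.sqrt ((t ^ 4 : ℕ) : ℝ) + ((t ^ 4 : ℕ) : ℝ)) :=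
          mul_le_mul_of_nonneg_right (le_max_left _ _) hX0
      _ ≤ (max C 1) * (3 * (t : ℝ) ^ 4) := mul_le_mul_of_nonneg_left hX (by linarith)
      _ = K * (t : ℝ) ^ 4 := by rw [hK]; ring
  refine lt_of_le_of_lt hbound ?_
  by_contra hle
  push Not at hle
  obtain ⟨hN4, hprop⟩ := Nat.sInf_mem (g0_set_nonempty (cliqueStar (t ^ 3) (t ^ 4)))
  set N := g0 (cliqueStar (t ^ 3) (t ^ 4)) with hNdef
  change 4 ≤ N at hN4
  change ∀ f : Edge N → Edge N, IsDisjointMap f →
    ∃ H : (⊤ : SimpleGraph (Fin N)).Subgraph, IsFreeCopy (cliqueStar (t ^ 3) (t ^ 4)) f H at hprop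
  rcases Nat.lt_or_ge N (t ^ 3) with hlt | hge
  · obtain ⟨f, hf⟩ := exists_disjointMap hN4
    obtain ⟨H, hH⟩ := hprop f hf
    obtain ⟨S, hS, -⟩ := free_clique_of_free_copy hst f H hH
    have := Finset.card_le_univ S
    rw [hS, Fintype.card_fin] at this
    omega
  · obtain ⟨f, hf, hfS⟩ := first_moment hN4 hge (numeric hK1 ht hlog hge hle)
    obtain ⟨H, hH⟩ := hprop f hf
    obtain ⟨S, hS, hfree⟩ := free_clique_of_free_copy hst f H hH
    obtain ⟨e, he, hfe⟩ := hfS S hS
    exact hfree e he hfe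

end Pool.Agent.Results.MP_48292c_co.PaddedClique
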